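import Pool.Agent.Helper23_Refl.StmtC5
import Pool.Agent.Helper93_Refl.Word

/-!
# SUB1, SUB2: subspaces are resolved, or can be moved to smaller ones
-/

namespace Pool.Agent.Refl.H28

open Matrix Pool.Agent.Refl

theorem fc_eq {α : Type} (n : ℕ) (f : ℕ → α) : K.fc n f = f n := by cases n <;> rfl

theorem brec_ne {b : Bool} {x : ℕ} (h : (Bool.rec 0 x b : ℕ) ≠ 0) : b = true ∧ x ≠ 0 := by
  cases b
  · exact absurd rfl h
  · exact ⟨rfl, h⟩

theorem okb_ne {b : Bool} {s : ℕ} (h : K.okb b s ≠ 0) : b = true := by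
  cases b
  · exact absurd rfl h
  · rfl

/-! ### resolutions -/

theorem resI_cases {O : K.OC} {X : List ℕ} {q : ℕ} {wd : ℕ → ℕ} {s : ℕ}
    (h : K.resI O X q wd s ≠ 0) :
    K.resT O X q 1 (Nat.div s 8) ≠ 0 ∨ wd (Nat.div s 8) ≠ 0 ∨ K.resN O X (Nat.div s 8) ≠ 0 ∨
      K.resA O X (Nat.div s 8) ≠ 0 ∨ K.resP O X (Nat.div s 8) ≠ 0 := by
  unfold K.resI at h
  rw [fc_eq] at h
  generalize Nat.mod s 8 = k at h
  rcases k with _ | _ | _ | _ | k
  · exact Or.inl h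
  · exact Or.inr (Or.inl h)
  · exact Or.inr (Or.inr (Or.inl h))
  · exact Or.inr (Or.inr (Or.inr (Or.inl h)))
  · exact Or.inr (Or.inr (Or.inr (Or.inr h)))

theorem noRef_resX {p : ℕ} {R : M4} {A : List M4} {X : Submodule ℤ Z4} (hSt : StabIStmt)
    (hp : p.Prime) (hR : Lat R) (h : NoRef p R X) : ResX p R A X := by
  intro W L hB hL _ hC hLat hRef
  obtain ⟨⟨W', hW'⟩, hX⟩ := hB
  exact absurd hRef (h W L 1 1 one_pos one_pos ⟨⟨W', hW'⟩, hX⟩ (by simp [hL]) hLat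
    (hSt p R L W W' hp hR hLat hW' hL hC))

theorem resI_resX (hT : ResTStmt) (hX : TabXStmt) (hN : ResNStmt) (hA : ResAStmt)
    (hP : ResPStmt) (hSt : StabIStmt) {O : K.OC} {F : List K.I4} {B : List Z4} {q : ℕ}
    {wd : ℕ → ℕ} {s : ℕ} (hO : OCok O F) (hB : B.length ≤ 3)
    (h : K.resI O (B.map (pkZ O.p)) q wd s ≠ 0) (hI : Idx O.p (SubX O.p B) q)
    (hw : ∀ s, wd s ≠ 0 → NoRef O.p (matI O.A) (SubX O.p B)) :
    ResX O.p (matI O.A) (tlist O.ta O.tn) (SubX O.p B) := by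
  rcases resI_cases h with h | h | h | h | h
  · obtain ⟨M, T, h1, h2, h3, h4⟩ := hT O F B q 1 _ hO hB h
    exact hX O.p (matI O.A) (tlist O.ta O.tn) (SubX O.p B) q M T hO.pr hI h1 h2 h3
      (by simpa using h4)
  · exact noRef_resX hSt hO.pr hO.lat (hw _ h)
  · exact hN O F B _ _ hO hB h
  · exact hA O F B _ _ hO hB h
  · exact hP O F B _ _ hO hB h

/-! ### reflections -/

theorem getG_map (f : K.I4 → K.Gp) : ∀ (F : List K.I4) (i : ℕ) (_ : i < F.length),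
    ∃ e ∈ F, K.getG (F.map f) i = f e := by
  intro F
  induction F with
  | nil => intro i h; simp at h
  | cons a l ih =>
    intro i h
    cases i with
    | zero => exact ⟨a, by simp, rfl⟩
    | succ m =>
      obtain ⟨e, he, h1⟩ := ih m (by simpa using h)
      exact ⟨e, by simp [he], h1⟩

theorem dvd_mulVec {p : ℤ} {S : M4} {y : Z4} (h : ∀ i, p ∣ y i) (i : Fin 4) :
    p ∣ S.mulVec y i := by
  change p ∣ ∑ j, S i j * y j
  exact Finset.dvd_sum fun j _ => Dvd.dvd.mul_left (h j) _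

theorem cg_zero {p : ℕ} {x : Z4} : Cg p x 0 ↔ ∀ i, (p : ℤ) ∣ x i := by
  simp [Cg]

theorem cg_mulVec {p : ℕ} {S : M4} (hS : S * S = 1) {x : Z4} (h : Cg p (S.mulVec x) 0) :
    Cg p x 0 := by
  rw [cg_zero] at h ⊢
  have h1 : x = S.mulVec (S.mulVec x) := by rw [Matrix.mulVec_mulVec, hS, Matrix.one_mulVec]
  intro i
  rw [h1]
  exact dvd_mulVec h i

theorem subX_map {p : ℕ} (S : M4) {B : List Z4} {v : Z4} (h : v ∈ SubX p B) :
    S.mulVec v ∈ SubX p (B.map S.mulVec) := by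
  unfold SubX at h ⊢
  have h1 : Submodule.span ℤ ({v | v ∈ B} ∪ {v | ∃ w : Z4, v = (p : ℤ) • w}) ≤
      (Submodule.span ℤ ({v | v ∈ B.map S.mulVec} ∪ {v | ∃ w : Z4, v = (p : ℤ) • w})).comap
        (Matrix.mulVecLin S) := by
    rw [Submodule.span_le]
    rintro x (hx | ⟨w, hx⟩)
    · have hx' : x ∈ B := hx
      refine Submodule.subset_span (Or.inl ?_)
      change S.mulVec x ∈ B.map S.mulVec
      exact List.mem_map_of_mem hx'
    · refine Submodule.subset_span (Or.inr ⟨S.mulVec w, ?_⟩)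
      subst hx
      exact Matrix.mulVec_smul S (p : ℤ) w
  exact h1 h

theorem subX_iff {p : ℕ} {S : M4} (hS : S * S = 1) {B : List Z4} {v : Z4} :
    v ∈ SubX p B ↔ S.mulVec v ∈ SubX p (B.map S.mulVec) := by
  refine ⟨subX_map S, fun h => ?_⟩
  have h1 := subX_map S h
  have h2 : S.mulVec ∘ S.mulVec = id := by
    funext x
    simp [Matrix.mulVec_mulVec, hS]
  rw [List.map_map, h2, List.map_id, Matrix.mulVec_mulVec, hS, Matrix.one_mulVec] at h1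
  exact h1

theorem hypX_iff {p : ℕ} {S : M4} (hS : S * S = 1) {y v : Z4} :
    v ∈ HypX p y ↔ S.mulVec v ∈ HypX p (S.transpose.mulVec y) := by
  change (p : ℤ) ∣ y ⬝ᵥ v ↔ (p : ℤ) ∣ (S.transpose.mulVec y) ⬝ᵥ (S.mulVec v)
  rw [Matrix.mulVec_transpose, ← Matrix.dotProduct_mulVec, Matrix.mulVec_mulVec, hS,
    Matrix.one_mulVec]

theorem act_step {O : K.OC} {F : List K.I4} (hA : ActStmt) (hO : OCok O F) {i : ℕ}
    (hi : i < O.len) : ∃ S : M4ˣ, S ∈ OG (matI O.A) ∧ (S : M4) * (S : M4) = 1 ∧ ∀ x : Z4,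
      K.actC (K.getG O.L i) O.p (pkZ O.p x) = pkZ O.p ((S : M4).mulVec x) ∧
      K.actR (K.getG O.L i) O.p (pkZ O.p x) = pkZ O.p ((S : M4).transpose.mulVec x) := by
  rw [hO.hlen] at hi
  obtain ⟨e, he, h1⟩ := getG_map (fun e => gpZ O.p O.M (rm (matI O.A) (vI e))) F i hi
  have hr := hO.root e he
  refine ⟨H93.su hr, H93.su_mem hO.lat.symm hr, H93.rm_sq hr, fun x => ?_⟩
  have h11 : 11 ≤ O.M := hO.mge
  have h2 := hA O.p O.M (rm (matI O.A) (vI e)) x hO.pr.one_lt.le hO.ple (by omega) hO.mle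
  rw [hO.hL, h1]
  exact ⟨h2.1, h2.2.1⟩

/-! ### lines and hyperplanes -/

/-- moved vector -/
def mv (b : Bool) (S : M4) (x : Z4) : Z4 := if b then S.transpose.mulVec x else S.mulVec x

theorem act_mv {O : K.OC} {S : M4} {i : ℕ} {x : Z4} (b : Bool)
    (h1 : K.actC (K.getG O.L i) O.p (pkZ O.p x) = pkZ O.p (S.mulVec x))
    (h2 : K.actR (K.getG O.L i) O.p (pkZ O.p x) = pkZ O.p (S.transpose.mulVec x)) :
    actB b (K.getG O.L i) O.p (pkZ O.p x) = pkZ O.p (mv b S x) := by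
  cases b
  · exact h1
  · exact h2

theorem mv_ne {p : ℕ} {S : M4} (hS : S * S = 1) {x : Z4} (b : Bool) (h : ¬ Cg p x 0) :
    ¬ Cg p (mv b S x) 0 := by
  intro h1
  cases b
  · exact h (cg_mulVec hS h1)
  · have hS' : S.transpose * S.transpose = 1 := by
      rw [← Matrix.transpose_mul, hS, Matrix.transpose_one]
    exact h (cg_mulVec hS' h1)

theorem X1_iff {p : ℕ} {S : M4} (hS : S * S = 1) (b : Bool) {x v : Z4} :
    v ∈ X1 b p x ↔ S.mulVec v ∈ X1 b p (mv b S x) := by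
  cases b
  · exact subX_iff (B := [x]) hS
  · exact hypX_iff hS

theorem pth1_ne {O : K.OC} {act : K.Gp → ℕ → ℕ → ℕ} {k : ℕ} {f : ℕ → ℕ → ℕ} {x s : ℕ}
    (h : K.pth1 O act (k + 1) f x s ≠ 0) :
    ∃ i < O.len, ∃ s', K.pth1 O act k f (act (K.getG O.L i) O.p x) s' ≠ 0 := by
  have h' : K.fc (Nat.mod s 64) (fun i => (Bool.rec 0 (K.fc (act (K.getG O.L i) O.p x)
      fun x => K.pth1 O act k f x (Nat.div s 64)) (Nat.blt i O.len) : ℕ)) ≠ 0 := h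
  rw [fc_eq] at h'
  obtain ⟨h1, h2⟩ := brec_ne h'
  rw [fc_eq] at h2
  exact ⟨_, Nat.le_of_ble_eq_true h1, _, h2⟩

theorem path1 (hA : ActStmt) {O : K.OC} {F : List K.I4} (hO : OCok O F) (b : Bool)
    (f : ℕ → ℕ → ℕ) : ∀ (k : ℕ) (x : Z4) (s : ℕ),
    K.pth1 O (actB b) k f (pkZ O.p x) s ≠ 0 → ¬ Cg O.p x 0 →
    ∃ (x' : Z4) (s' : ℕ), f (pkZ O.p x') s' ≠ 0 ∧ ¬ Cg O.p x' 0 ∧
      ∃ h ∈ OG (matI O.A), ∀ v : Z4, v ∈ X1 b O.p x ↔ (h : M4).mulVec v ∈ X1 b O.p x' := by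
  intro k
  induction k with
  | zero =>
    intro x s h hx
    exact ⟨x, s, h, hx, 1, Subgroup.one_mem _, fun v => by simp⟩
  | succ k ih =>
    intro x s h hx
    obtain ⟨i, hi, s', h1⟩ := pth1_ne h
    obtain ⟨S, hS1, hS2, hS3⟩ := act_step hA hO hi
    obtain ⟨h2, h3⟩ := hS3 x
    rw [act_mv b h2 h3] at h1
    obtain ⟨x', s'', h4, h5, g, hg, h6⟩ := ih _ _ h1 (mv_ne hS2 b hx)
    refine ⟨x', s'', h4, h5, g * S, Subgroup.mul_mem _ hg hS1, fun v => ?_⟩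
    rw [X1_iff hS2 b, h6, Units.val_mul, Matrix.mulVec_mulVec]

theorem lnForm_ne {p : ℕ} (hp : p.Prime) {x : Z4} (h : LnForm p x) : ¬ Cg p x 0 := by
  rw [cg_zero]
  intro h1
  have h2 : ¬ (p : ℤ) ∣ 1 := by
    intro h3
    have h4 : (p : ℤ) ∣ ((1 : ℕ) : ℤ) := by simpa using h3
    exact hp.one_lt.ne' (Nat.dvd_one.mp (Int.natCast_dvd_natCast.mp h4))
  obtain ⟨a, b, c, _, _, _, h | h | h | h⟩ := h
  · exact h2 (by simpa [h, nz] using h1 0)
  · exact h2 (by simpa [h, nz] using h1 1)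
  · exact h2 (by simpa [h, nz] using h1 2)
  · exact h2 (by simpa [h, nz] using h1 3)

theorem pkZ_nz {p a b c d : ℕ} (ha : a < p) (hb : b < p) (hc : c < p) (hd : d < p) :
    pkZ p (nz a b c d) = K.p4 a b c d := by
  have h1 : ∀ n : ℕ, n < p → ((n : ℤ) % (p : ℤ)).toNat = n := by
    intro n hn
    rw [← Int.natCast_mod, Nat.mod_eq_of_lt hn, Int.toNat_natCast]
  unfold pkZ nz K.p4
  simp only [Matrix.cons_val_zero, Matrix.cons_val_one, Matrix.cons_val]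
  rw [h1 a ha, h1 b hb, h1 c hc, h1 d hd]
  simp only [Nat.add_eq, Nat.mul_eq, K.S1, K.S2, K.S3]
  omega

theorem invp_one {p : ℕ} (hp : 1 < p) : K.invp p 1 = 1 := by
  unfold K.invp
  simp only [Nat.pow_eq, one_pow]
  rw [show Nat.mod 1 p = 1 % p from rfl, Nat.mod_eq_of_lt hp]

theorem nrmP_one {p X : ℕ} (hp : 1 < p) (hr : K.redm p X = X)
    (h : K.dig0 X = 1 ∨ (K.dig0 X = 0 ∧ K.dig1 X = 1) ∨
      (K.dig0 X = 0 ∧ K.dig1 X = 0 ∧ K.dig2 X = 1)) : K.nrmP p X = X := by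
  unfold K.nrmP
  rcases h with h | ⟨h, h'⟩ | ⟨h, h', h''⟩
  · rw [fc_eq, h]
    change K.fc (K.invp p 1) (fun i => K.redm p (Nat.mul i X)) = X
    rw [fc_eq, invp_one hp, show Nat.mul 1 X = X from Nat.one_mul X, hr]
  · rw [fc_eq, h]
    change K.fc (K.dig1 X) _ = X
    rw [fc_eq, h']
    change K.fc (K.invp p 1) (fun i => K.redm p (Nat.mul i X)) = X
    rw [fc_eq, invp_one hp, show Nat.mul 1 X = X from Nat.one_mul X, hr]
  · rw [fc_eq, h]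
    change K.fc (K.dig1 X) _ = X
    rw [fc_eq, h']
    change K.fc (K.dig2 X) _ = X
    rw [fc_eq, h'']
    change K.fc (K.invp p 1) (fun i => K.redm p (Nat.mul i X)) = X
    rw [fc_eq, invp_one hp, show Nat.mul 1 X = X from Nat.one_mul X, hr]

theorem nrmP_last {p X : ℕ} (h0 : K.dig0 X = 0) (h1 : K.dig1 X = 0) (h2 : K.dig2 X = 0)
    (h3 : K.dig3 X = 1) : K.nrmP p X = K.p4 0 0 0 1 := by
  unfold K.nrmP
  rw [fc_eq, h0]
  change K.fc (K.dig1 X) _ = _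
  rw [fc_eq, h1]
  change K.fc (K.dig2 X) _ = _
  rw [fc_eq, h2, h3]
  rfl

theorem nrmP_ln (hK : PkZStmt) {p : ℕ} (hp : p.Prime) (hp' : p ≤ 127) {x : Z4}
    (h : LnForm p x) : K.nrmP p (pkZ p x) = pkZ p x := by
  have h1p := hp.one_lt
  obtain ⟨-, -, -, hd, hr⟩ := hK p h1p.le hp'
  obtain ⟨d0, d1, d2, d3⟩ := hd x
  have e1 : (1 : ℤ) % (p : ℤ) = 1 := Int.emod_eq_of_lt (by norm_num) (by exact_mod_cast h1p)
  have e0 : (0 : ℤ) % (p : ℤ) = 0 := by simp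
  have hred : ∀ a b c d : ℕ, a < p → b < p → c < p → d < p →
      K.redm p (pkZ p (nz a b c d)) = pkZ p (nz a b c d) := by
    intro a b c d ha hb hc hd
    have := hr a b c d (by omega) (by omega) (by omega) (by omega)
    rw [← pkZ_nz ha hb hc hd] at this
    exact this
  obtain ⟨a, b, c, ha, hb, hc, h | h | h | h⟩ := h
  · subst h
    refine nrmP_one h1p (hred 1 a b c h1p ha hb hc) (Or.inl ?_)
    have : ((K.dig0 (pkZ p (nz 1 a b c)) : ℕ) : ℤ) = ((1 : ℕ) : ℤ) := by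
      rw [d0]; simpa [nz] using e1
    exact_mod_cast this
  · subst h
    refine nrmP_one h1p (hred 0 1 a b (by omega) h1p ha hb) (Or.inr (Or.inl ⟨?_, ?_⟩))
    · have : ((K.dig0 (pkZ p (nz 0 1 a b)) : ℕ) : ℤ) = ((0 : ℕ) : ℤ) := by
        rw [d0]; simp [nz]
      exact_mod_cast this
    · have : ((K.dig1 (pkZ p (nz 0 1 a b)) : ℕ) : ℤ) = ((1 : ℕ) : ℤ) := by
        rw [d1]; simpa [nz] using e1
      exact_mod_cast this
  · subst h
    refine nrmP_one h1p (hred 0 0 1 a (by omega) (by omega) h1p ha)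
      (Or.inr (Or.inr ⟨?_, ?_, ?_⟩))
    · have : ((K.dig0 (pkZ p (nz 0 0 1 a)) : ℕ) : ℤ) = ((0 : ℕ) : ℤ) := by
        rw [d0]; simp [nz]
      exact_mod_cast this
    · have : ((K.dig1 (pkZ p (nz 0 0 1 a)) : ℕ) : ℤ) = ((0 : ℕ) : ℤ) := by
        rw [d1]; simp [nz]
      exact_mod_cast this
    · have : ((K.dig2 (pkZ p (nz 0 0 1 a)) : ℕ) : ℤ) = ((1 : ℕ) : ℤ) := by
        rw [d2]; simpa [nz] using e1
      exact_mod_cast this
  · subst h
    rw [pkZ_nz (by omega) (by omega) (by omega) h1p]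
    rw [pkZ_nz (by omega) (by omega) (by omega) h1p] at d0 d1 d2 d3
    refine nrmP_last ?_ ?_ ?_ ?_
    · have : ((K.dig0 (K.p4 0 0 0 1) : ℕ) : ℤ) = ((0 : ℕ) : ℤ) := by
        rw [d0]; simp [nz]
      exact_mod_cast this
    · have : ((K.dig1 (K.p4 0 0 0 1) : ℕ) : ℤ) = ((0 : ℕ) : ℤ) := by
        rw [d1]; simp [nz]
      exact_mod_cast this
    · have : ((K.dig2 (K.p4 0 0 0 1) : ℕ) : ℤ) = ((0 : ℕ) : ℤ) := by
        rw [d2]; simp [nz]
      exact_mod_cast this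
    · have : ((K.dig3 (K.p4 0 0 0 1) : ℕ) : ℤ) = ((1 : ℕ) : ℤ) := by
        rw [d3]; simpa [nz] using e1
      exact_mod_cast this

theorem X1_eq {p : ℕ} (hI : IdxStmt) (hp : p.Prime) (b : Bool) {x : Z4} (h : LnForm p x) :
    X1 b p x = SubX p (B1 b x) ∧ Idx p (X1 b p x) (q1 b p) := by
  obtain ⟨h1, -, h3⟩ := hI p hp
  cases b
  · exact ⟨rfl, h1 x h⟩
  · exact h3 x h

theorem B1_length (b : Bool) (x : Z4) : (B1 b x).length ≤ 3 := by
  cases b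
  · simp [B1]
  · simp only [B1, if_true]
    unfold hypB
    split_ifs <;> simp

theorem sub1_ne {O : K.OC} {act : K.Gp → ℕ → ℕ → ℕ} {q x : ℕ} {X : List ℕ} {s : ℕ}
    (h : K.sub1 O act q x X s ≠ 0) : (∃ s', K.resI O X q
      (fun s => K.wrd1 O act x (Nat.mod s 64) x x 1 K.S1 K.S2 K.S3 (Nat.div s 64)) s' ≠ 0) ∨
      ∃ k s', K.pth1 O act k (fun y s => K.okb (Nat.blt (K.nrmP O.p y) x) s) x s' ≠ 0 := by
  unfold K.sub1 at h
  rw [fc_eq, fc_eq] at h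
  generalize Nat.mod s 8 = k at h
  rcases k with _ | k
  · exact Or.inl ⟨_, h⟩
  · exact Or.inr ⟨k + 1, _, h⟩

theorem sub1 (hT : ResTStmt) (hX : TabXStmt) (hN : ResNStmt) (hA : ResAStmt)
    (hP : ResPStmt) (hSt : StabIStmt) (hW : Wrd1Stmt) (hI : IdxStmt) (hAct : ActStmt)
    (hK : PkZStmt) : Sub1Stmt := by
  intro O F b x s hO hx h
  obtain ⟨hX1, hX2⟩ := X1_eq hI hO.pr b hx
  have hx0 := lnForm_ne hO.pr hx
  rcases sub1_ne h with ⟨s', h⟩ | ⟨k, s', h⟩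
  · left
    rw [hX1] at hX2 ⊢
    refine resI_resX hT hX hN hA hP hSt hO (B1_length b x) h hX2 ?_
    intro s h1
    rw [← hX1]
    exact hW O F b x _ _ hO hx0 (nrmP_ln hK hO.pr hO.ple hx) h1
  · right
    obtain ⟨x', s'', h1, h2, h3⟩ := path1 hAct hO b _ k x s' h hx0
    exact ⟨x', h2, Nat.le_of_ble_eq_true (okb_ne h1), h3⟩

/-! ### planes -/

theorem pth2_ne {O : K.OC} {k : ℕ} {f : ℕ → ℕ → ℕ → ℕ} {x y s : ℕ}
    (h : K.pth2 O (k + 1) f x y s ≠ 0) : ∃ i < O.len, ∃ s',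
    K.pth2 O k f (K.actC (K.getG O.L i) O.p x) (K.actC (K.getG O.L i) O.p y) s' ≠ 0 := by
  have h' : K.fc (Nat.mod s 64) (fun i => (Bool.rec 0 (K.fc (K.actC (K.getG O.L i) O.p x)
      fun x => K.fc (K.actC (K.getG O.L i) O.p y) fun y => K.pth2 O k f x y (Nat.div s 64))
        (Nat.blt i O.len) : ℕ)) ≠ 0 := h
  rw [fc_eq] at h'
  obtain ⟨h1, h2⟩ := brec_ne h'
  rw [fc_eq, fc_eq] at h2
  exact ⟨_, Nat.le_of_ble_eq_true h1, _, h2⟩

theorem ind_mv {p : ℕ} {S : M4} (hS : S * S = 1) {x y : Z4} (h : Ind p x y) :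
    Ind p (S.mulVec x) (S.mulVec y) := by
  intro a b h1
  refine h a b (cg_mulVec hS ?_)
  rw [Matrix.mulVec_add, Matrix.mulVec_smul, Matrix.mulVec_smul]
  exact h1

theorem path2 (hA : ActStmt) {O : K.OC} {F : List K.I4} (hO : OCok O F)
    (f : ℕ → ℕ → ℕ → ℕ) : ∀ (k : ℕ) (x y : Z4) (s : ℕ),
    K.pth2 O k f (pkZ O.p x) (pkZ O.p y) s ≠ 0 → Ind O.p x y →
    ∃ (x' y' : Z4) (s' : ℕ), f (pkZ O.p x') (pkZ O.p y') s' ≠ 0 ∧ Ind O.p x' y' ∧
      ∃ h ∈ OG (matI O.A), ∀ v : Z4,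
        v ∈ SubX O.p [x, y] ↔ (h : M4).mulVec v ∈ SubX O.p [x', y'] := by
  intro k
  induction k with
  | zero =>
    intro x y s h hx
    exact ⟨x, y, s, h, hx, 1, Subgroup.one_mem _, fun v => by simp⟩
  | succ k ih =>
    intro x y s h hx
    obtain ⟨i, hi, s', h1⟩ := pth2_ne h
    obtain ⟨S, hS1, hS2, hS3⟩ := act_step hA hO hi
    rw [(hS3 x).1, (hS3 y).1] at h1
    obtain ⟨x', y', s'', h4, h5, g, hg, h6⟩ := ih _ _ _ h1 (ind_mv hS2 hx)
    refine ⟨x', y', s'', h4, h5, g * S, Subgroup.mul_mem _ hg hS1, fun v => ?_⟩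
    have h7 : v ∈ SubX O.p [x, y] ↔ (S : M4).mulVec v ∈
        SubX O.p [(S : M4).mulVec x, (S : M4).mulVec y] := subX_iff (B := [x, y]) hS2
    rw [h7, h6, Units.val_mul, Matrix.mulVec_mulVec]

theorem sub2_ne {O : K.OC} {x y s : ℕ} (h : K.sub2 O x y s ≠ 0) :
    (∃ s', K.resI O [x, y] (Nat.mul O.p O.p) (fun s => K.wrd2 O x y (Nat.mod s 64) x y
      (K.code2 O.p x y) 1 K.S1 K.S2 K.S3 (Nat.div s 64)) s' ≠ 0) ∨
      ∃ k s', K.pth2 O k (fun x' y' s => K.okb (Nat.blt (K.code2 O.p x' y')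
        (K.code2 O.p x y)) s) x y s' ≠ 0 := by
  unfold K.sub2 at h
  rw [fc_eq, fc_eq, fc_eq] at h
  generalize Nat.mod s 8 = k at h
  rcases k with _ | k
  · exact Or.inl ⟨_, h⟩
  · exact Or.inr ⟨k + 1, _, h⟩

theorem sub2 (hT : ResTStmt) (hX : TabXStmt) (hN : ResNStmt) (hA : ResAStmt)
    (hP : ResPStmt) (hSt : StabIStmt) (hW : Wrd2Stmt) (hI : IdxStmt) (hAct : ActStmt) :
    Sub2Stmt := by
  intro O F x y s hO hx h
  obtain ⟨hin, hidx⟩ := (hI O.p hO.pr).2.1 x y hx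
  rcases sub2_ne h with ⟨s', h⟩ | ⟨k, s', h⟩
  · left
    have hq : Nat.mul O.p O.p = O.p ^ 2 := by rw [pow_two]; rfl
    rw [hq] at h
    refine resI_resX (B := [x, y]) hT hX hN hA hP hSt hO (by simp) h hidx ?_
    intro s h1
    exact hW O F x y _ _ hO hin h1
  · right
    obtain ⟨x', y', s'', h1, h2, h3⟩ := path2 hAct hO _ k x y s' h hin
    exact ⟨x', y', h2, Nat.le_of_ble_eq_true (okb_ne h1), h3⟩

end Pool.Agent.Refl.H28
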